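import Pool.Agent.helper46.T1.SpecP

/-!
# Row t1:PCH (MP_07c750, project T1): the cutoffs exist
-/

set_option autoImplicit false

open scoped MatrixGroups ContDiff Topology UpperHalfPlane ComplexConjugate
open UpperHalfPlane MeasureTheory Filter Set

namespace Pool.Agent.TP

open Pool.Agent.RS Pool.Agent.MS

theorem PCH_cb (f : ℝ → ℝ) (hf : ContDiff ℝ 1 f) (hr : ∀ x, 0 ≤ f x ∧ f x ≤ 1) (c c' : ℝ) (h1 : ∀ x, x < -1 → f x = c)
    (h2 : ∀ x, 2 < x → f x = c') : ∃ C : ℝ, 1 ≤ C ∧ CB C f (deriv f) := by
  have hc : Continuous (deriv f) := hf.continuous_deriv le_rfl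
  obtain ⟨C, hC⟩ := (isCompact_Icc (a := (-1 : ℝ)) (b := 2)).exists_bound_of_continuousOn hc.continuousOn
  refine ⟨max 1 C, le_max_left _ _, hr, fun x => ((hf.differentiable one_ne_zero) x).hasDerivAt, hc, fun x => ?_⟩
  by_cases hx1 : x < -1
  · have e : f =ᶠ[𝓝 x] fun _ => c := by
      filter_upwards [Iio_mem_nhds hx1] with y hy
      exact h1 y hy
    rw [e.deriv_eq, deriv_const, abs_zero]
    exact zero_le_one.trans (le_max_left _ _)
  · by_cases hx2 : 2 < x
    · have e : f =ᶠ[𝓝 x] fun _ => c' := by
        filter_upwards [Ioi_mem_nhds hx2] with y hy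
        exact h2 y hy
      rw [e.deriv_eq, deriv_const, abs_zero]
      exact zero_le_one.trans (le_max_left _ _)
    · exact (hC x ⟨not_lt.1 hx1, not_lt.1 hx2⟩).trans (le_max_right _ _)

theorem PCH_mono {C C' : ℝ} {f f' : ℝ → ℝ} (h : CB C f f') (hC : C ≤ C') : CB C' f f' :=
  ⟨h.rg, h.dv, h.ct, fun x => (h.bd x).trans hC⟩

theorem PCH_proof : PCH_stmt := by
  have hS : ContDiff ℝ 1 Real.smoothTransition := Real.smoothTransition.contDiff
  have hχ : ContDiff ℝ 1 fun x : ℝ => Real.smoothTransition ((x - 1 / 20) / (9 / 20)) :=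
    hS.comp ((contDiff_id.sub contDiff_const).div_const _)
  have hζ : ContDiff ℝ 1 fun x : ℝ => Real.smoothTransition (100 * (x - 1 / 25)) * Real.smoothTransition (100 * (49 / 50 - x)) :=
    (hS.comp (contDiff_const.mul (contDiff_id.sub contDiff_const))).mul (hS.comp (contDiff_const.mul (contDiff_const.sub contDiff_id)))
  obtain ⟨C, hC1, hC⟩ := PCH_cb _ hχ (fun x => ⟨Real.smoothTransition.nonneg _, Real.smoothTransition.le_one _⟩) 0 1
    (fun x hx => Real.smoothTransition.zero_of_nonpos (by rw [div_nonpos_iff]; right; constructor <;> linarith))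
    (fun x hx => Real.smoothTransition.one_of_one_le (by rw [le_div_iff₀ (by norm_num)]; linarith))
  obtain ⟨C', hC1', hC'⟩ := PCH_cb _ hζ (fun x => ⟨mul_nonneg (Real.smoothTransition.nonneg _) (Real.smoothTransition.nonneg _),
      mul_le_one₀ (Real.smoothTransition.le_one _) (Real.smoothTransition.nonneg _) (Real.smoothTransition.le_one _)⟩) 0 0
    (fun x hx => by
      change Real.smoothTransition (100 * (x - 1 / 25)) * Real.smoothTransition (100 * (49 / 50 - x)) = 0
      rw [Real.smoothTransition.zero_of_nonpos (x := 100 * (x - 1 / 25)) (by linarith), zero_mul])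
    (fun x hx => by
      change Real.smoothTransition (100 * (x - 1 / 25)) * Real.smoothTransition (100 * (49 / 50 - x)) = 0
      rw [Real.smoothTransition.zero_of_nonpos (x := 100 * (49 / 50 - x)) (by linarith), mul_zero])
  refine ⟨max C C', _, _, _, _, hC1.trans (le_max_left _ _), PCH_mono hC (le_max_left _ _), PCH_mono hC' (le_max_right _ _), ⟨?_, ?_⟩, ?_, ?_⟩
  · intro x hx
    exact Real.smoothTransition.zero_of_nonpos (by rw [div_nonpos_iff]; right; constructor <;> linarith)
  · intro x hx
    exact Real.smoothTransition.one_of_one_le (by rw [le_div_iff₀ (by norm_num)]; linarith)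
  · intro x hx1 hx2
    change Real.smoothTransition (100 * (x - 1 / 25)) * Real.smoothTransition (100 * (49 / 50 - x)) = 1
    rw [Real.smoothTransition.one_of_one_le (x := 100 * (x - 1 / 25)) (by linarith),
      Real.smoothTransition.one_of_one_le (x := 100 * (49 / 50 - x)) (by linarith), one_mul]
  · intro x hx
    change Real.smoothTransition (100 * (x - 1 / 25)) * Real.smoothTransition (100 * (49 / 50 - x)) ≠ 0 at hx
    constructor
    · by_contra h
      apply hx
      rw [Real.smoothTransition.zero_of_nonpos (x := 100 * (x - 1 / 25)) (by linarith [not_lt.1 h]), zero_mul]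
    · by_contra h
      apply hx
      rw [Real.smoothTransition.zero_of_nonpos (x := 100 * (49 / 50 - x)) (by linarith [not_lt.1 h]), mul_zero]

end Pool.Agent.TP
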